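import Mathlib
import Pool.Agent.H96R3.BC.Stmts

/-!
# Project BIGCOEF, task KER1: the kernel (derivative, continuity, Laplace transform)
-/

set_option autoImplicit false

open MeasureTheory Set

namespace Pool.Agent.H589R3.BC

open Pool.Agent.H96R3.BC

/-- the entire function of the kernel -/
noncomputable def gg1 (m : ℕ) (z : ℝ) : ℝ :=
  ∑' j : ℕ, (-z) ^ j / ((j.factorial : ℝ) * ((m + j).factorial : ℝ))

lemma fac_pos (n : ℕ) : (0 : ℝ) < (n.factorial : ℝ) := by exact_mod_cast n.factorial_pos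

lemma one_le_fac (n : ℕ) : (1 : ℝ) ≤ (n.factorial : ℝ) := by exact_mod_cast n.factorial_pos

lemma term_abs (m : ℕ) (z : ℝ) (j : ℕ) :
    |(-z) ^ j / ((j.factorial : ℝ) * ((m + j).factorial : ℝ))| ≤ |z| ^ j / (j.factorial : ℝ) := by
  have h1 := fac_pos j
  have h2 := one_le_fac (m + j)
  rw [abs_div, abs_pow, abs_neg, abs_of_pos (a := (j.factorial : ℝ) * ((m + j).factorial : ℝ)) (by positivity)]
  apply div_le_div_of_nonneg_left (by positivity) h1
  nlinarith

lemma summ (m : ℕ) (z : ℝ) :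
    Summable (fun j : ℕ => (-z) ^ j / ((j.factorial : ℝ) * ((m + j).factorial : ℝ))) := by
  refine Summable.of_norm_bounded (Real.summable_pow_div_factorial |z|) (fun j => ?_)
  rw [Real.norm_eq_abs]
  exact term_abs m z j

lemma gg1_deriv (m : ℕ) (y : ℝ) : HasDerivAt (gg1 m) (-(gg1 (m + 1) y)) y := by
  set R : ℝ := |y| + 1 with hR
  have hR1 : 1 ≤ R := by rw [hR]; linarith [abs_nonneg y]
  have hmem : y ∈ Metric.ball (0 : ℝ) R := by
    rw [mem_ball_zero_iff, Real.norm_eq_abs, hR]; linarith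
  have hg : ∀ (n : ℕ) (z : ℝ), z ∈ Metric.ball (0 : ℝ) R → HasDerivAt
      (fun z : ℝ => (-z) ^ n / ((n.factorial : ℝ) * ((m + n).factorial : ℝ)))
      (-((n : ℝ) * (-z) ^ (n - 1)) / ((n.factorial : ℝ) * ((m + n).factorial : ℝ))) z := by
    intro n z _
    have h := ((hasDerivAt_id z).neg.pow n).div_const ((n.factorial : ℝ) * ((m + n).factorial : ℝ))
    refine HasDerivAt.congr_deriv (f' := _) h ?_
    simp
  have hb : ∀ (n : ℕ) (z : ℝ), z ∈ Metric.ball (0 : ℝ) R →
      ‖-((n : ℝ) * (-z) ^ (n - 1)) / ((n.factorial : ℝ) * ((m + n).factorial : ℝ))‖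
        ≤ (2 * R) ^ n / (n.factorial : ℝ) := by
    intro n z hz
    rw [mem_ball_zero_iff, Real.norm_eq_abs] at hz
    have h1 := fac_pos n
    have h2 := one_le_fac (m + n)
    rw [Real.norm_eq_abs, abs_div, abs_neg, abs_mul, abs_pow, abs_neg, Nat.abs_cast,
      abs_of_pos (a := (n.factorial : ℝ) * ((m + n).factorial : ℝ)) (by positivity)]
    have h3 : (n : ℝ) * |z| ^ (n - 1) ≤ (2 * R) ^ n := by
      rw [mul_pow]
      have h4 : (n : ℝ) ≤ 2 ^ n := by exact_mod_cast (Nat.lt_two_pow_self (n := n)).le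
      have h5 : |z| ^ (n - 1) ≤ R ^ n := by
        calc |z| ^ (n - 1) ≤ R ^ (n - 1) := by gcongr
          _ ≤ R ^ n := pow_le_pow_right₀ hR1 (Nat.sub_le n 1)
      gcongr
    calc (n : ℝ) * |z| ^ (n - 1) / ((n.factorial : ℝ) * ((m + n).factorial : ℝ))
        ≤ (2 * R) ^ n / ((n.factorial : ℝ) * ((m + n).factorial : ℝ)) := by gcongr
      _ ≤ (2 * R) ^ n / (n.factorial : ℝ) := by
          apply div_le_div_of_nonneg_left (by positivity) h1
          nlinarith
  have key := hasDerivAt_tsum_of_isPreconnected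
    (g := fun (n : ℕ) (z : ℝ) => (-z) ^ n / ((n.factorial : ℝ) * ((m + n).factorial : ℝ)))
    (g' := fun (n : ℕ) (z : ℝ) => -((n : ℝ) * (-z) ^ (n - 1)) / ((n.factorial : ℝ) * ((m + n).factorial : ℝ)))
    (Real.summable_pow_div_factorial (2 * R)) Metric.isOpen_ball
    (convex_ball (0 : ℝ) R).isPreconnected hg hb hmem (summ m y) hmem
  have hs : Summable (fun n : ℕ =>
      -((n : ℝ) * (-y) ^ (n - 1)) / ((n.factorial : ℝ) * ((m + n).factorial : ℝ))) :=
    Summable.of_norm_bounded (Real.summable_pow_div_factorial (2 * R)) (fun n => hb n y hmem)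
  have hval : ∑' n : ℕ, -((n : ℝ) * (-y) ^ (n - 1)) / ((n.factorial : ℝ) * ((m + n).factorial : ℝ))
      = -(gg1 (m + 1) y) := by
    rw [hs.tsum_eq_zero_add, gg1, ← tsum_neg]
    simp only [Nat.cast_zero, zero_mul, neg_zero, zero_div, zero_add]
    apply tsum_congr
    intro n
    have h1 := fac_pos n
    have h2 := fac_pos (m + 1 + n)
    have h3 : ((n + 1 : ℕ) : ℝ) ≠ 0 := by positivity
    rw [Nat.factorial_succ, Nat.add_sub_cancel, show m + (n + 1) = m + 1 + n from by ring]
    push_cast at h3 ⊢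
    field_simp
  rw [hval] at key
  exact key

lemma gg1_cont (m : ℕ) : Continuous (gg1 m) :=
  continuous_iff_continuousAt.2 (fun y => (gg1_deriv m y).continuousAt)

lemma KK_eq (k : ℕ) (u v : ℝ) : KK k u v = v ^ (k - 1) * gg1 (k - 1) (u * v) := rfl

lemma KK_deriv (k : ℕ) (hk : 1 ≤ k) (u v : ℝ) :
    HasDerivAt (fun u => KK k u v) (-(KK (k + 1) u v)) u := by
  obtain ⟨m, rfl⟩ : ∃ m, k = m + 1 := ⟨k - 1, by omega⟩
  have h1 : HasDerivAt (fun u : ℝ => u * v) v u := by
    simpa using (hasDerivAt_id u).mul_const v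
  have h2 := ((gg1_deriv m (u * v)).comp u h1).const_mul (v ^ m)
  have h3 : (fun u => KK (m + 1) u v) = fun y => v ^ m * (gg1 m ∘ fun u : ℝ => u * v) y := by
    funext y
    rw [KK_eq]
    simp
  rw [h3]
  refine h2.congr_deriv ?_
  rw [KK_eq]
  simp only [Nat.add_sub_cancel]
  ring

lemma KK_cont (k : ℕ) : Continuous fun x : ℝ × ℝ => KK k x.1 x.2 := by
  simp only [KK_eq]
  exact (continuous_snd.pow _).mul ((gg1_cont _).comp (continuous_fst.mul continuous_snd))

lemma int_pow (n : ℕ) (t : ℝ) (ht : 0 < t) :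
    IntegrableOn (fun v : ℝ => v ^ n * Real.exp (-(t * v))) (Ioi 0) ∧
    ∫ v in Ioi (0:ℝ), v ^ n * Real.exp (-(t * v)) = (n.factorial : ℝ) / t ^ (n + 1) := by
  have hk : (0 : ℝ) < (n : ℝ) + 1 := by positivity
  have key := Real.integral_rpow_mul_exp_neg_mul_Ioi hk ht
  have hf : (fun v : ℝ => v ^ n * Real.exp (-(t * v)))
      = fun v : ℝ => v ^ (((n : ℝ) + 1) - 1) * Real.exp (-(t * v)) := by
    funext v
    simp [add_sub_cancel_right, Real.rpow_natCast]
  have hval : (1 / t) ^ ((n : ℝ) + 1) * Real.Gamma ((n : ℝ) + 1) = (n.factorial : ℝ) / t ^ (n + 1) := by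
    rw [Real.Gamma_nat_eq_factorial, one_div, Real.inv_rpow ht.le]
    have : t ^ ((n : ℝ) + 1) = t ^ (n + 1) := by
      rw [← Real.rpow_natCast]; push_cast; rfl
    rw [this]
    field_simp
  rw [hf, key, hval]
  refine ⟨.of_integral_ne_zero ?_, rfl⟩
  rw [key, hval]
  have := fac_pos n
  positivity

lemma laplace (m : ℕ) (u t : ℝ) (hu : 0 ≤ u) (ht : 0 < t) :
    IntegrableOn (fun v : ℝ => Real.exp (-(v * t)) * KK (m + 1) u v) (Ioi 0) ∧
    ∫ v in Ioi (0:ℝ), Real.exp (-(v * t)) * KK (m + 1) u v = Real.exp (-(u / t)) / t ^ (m + 1) := by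
  -- the terms
  set F : ℕ → ℝ → ℝ := fun j v =>
    ((-u) ^ j / ((j.factorial : ℝ) * ((m + j).factorial : ℝ))) * (v ^ (m + j) * Real.exp (-(t * v))) with hF
  have hFint : ∀ j, Integrable (F j) (volume.restrict (Ioi (0:ℝ))) := fun j =>
    ((int_pow (m + j) t ht).1).const_mul _
  have hFval : ∀ j, ∫ v in Ioi (0:ℝ), F j v
      = (1 / t ^ (m + 1)) * ((-(u / t)) ^ j / (j.factorial : ℝ)) := by
    intro j
    have h1 := fac_pos j
    have h2 := fac_pos (m + j)
    rw [hF]
    simp only
    rw [integral_const_mul, (int_pow (m + j) t ht).2]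
    rw [show -(u / t) = (-u) / t from by ring, div_pow, show m + j + 1 = (m + 1) + j from by ring, pow_add t (m + 1) j]
    field_simp
  have hFnorm : ∀ j, ∫ v in Ioi (0:ℝ), ‖F j v‖
      = (1 / t ^ (m + 1)) * ((u / t) ^ j / (j.factorial : ℝ)) := by
    intro j
    have h1 := fac_pos j
    have h2 := fac_pos (m + j)
    have : ∫ v in Ioi (0:ℝ), ‖F j v‖ = ∫ v in Ioi (0:ℝ),
        (u ^ j / ((j.factorial : ℝ) * ((m + j).factorial : ℝ))) * (v ^ (m + j) * Real.exp (-(t * v))) := by
      apply setIntegral_congr_fun measurableSet_Ioi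
      intro v hv
      have hv' : (0:ℝ) < v := hv
      simp only [hF]
      rw [Real.norm_eq_abs, abs_mul, abs_div, abs_pow, abs_neg, abs_of_nonneg hu,
        abs_of_pos (a := (j.factorial : ℝ) * ((m + j).factorial : ℝ)) (by positivity),
        abs_of_pos (a := v ^ (m + j) * Real.exp (-(t * v))) (by positivity)]
    rw [this, integral_const_mul, (int_pow (m + j) t ht).2]
    rw [div_pow, show m + j + 1 = (m + 1) + j from by ring, pow_add t (m + 1) j]
    field_simp
  have hsum : Summable fun j => ∫ v in Ioi (0:ℝ), ‖F j v‖ := by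
    simp only [hFnorm]
    exact (Real.summable_pow_div_factorial (u / t)).mul_left _
  have key := hasSum_integral_of_summable_integral_norm hFint hsum
  -- pointwise sum
  have hpt : ∀ v : ℝ, ∑' j, F j v = Real.exp (-(v * t)) * KK (m + 1) u v := by
    intro v
    rw [KK_eq, Nat.add_sub_cancel, gg1, ← mul_assoc, ← tsum_mul_left]
    apply tsum_congr
    intro j
    simp only [hF]
    rw [show -(t * v) = -(v * t) from by ring, pow_add, show -(u * v) = (-u) * v from by ring, mul_pow]
    ring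
  have htot : HasSum (fun j => (1 / t ^ (m + 1)) * ((-(u / t)) ^ j / (j.factorial : ℝ)))
      (Real.exp (-(u / t)) / t ^ (m + 1)) := by
    have h := (NormedSpace.expSeries_div_hasSum_exp (𝔸 := ℝ) (-(u / t))).mul_left (1 / t ^ (m + 1))
    rw [← Real.exp_eq_exp_ℝ] at h
    have e : (1 / t ^ (m + 1)) * Real.exp (-(u / t)) = Real.exp (-(u / t)) / t ^ (m + 1) := by ring
    rw [← e]
    exact h
  constructor
  · -- integrability by the majorant
    have hmaj : Integrable (fun v : ℝ => Real.exp (2 * u / t) * (v ^ m * Real.exp (-((t / 2) * v))))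
        (volume.restrict (Ioi (0:ℝ))) := ((int_pow m (t / 2) (by positivity)).1).const_mul _
    have hcont : Continuous fun v : ℝ => Real.exp (-(v * t)) * KK (m + 1) u v := by
      refine (by fun_prop : Continuous fun v : ℝ => Real.exp (-(v * t))).mul ?_
      exact (KK_cont (m + 1)).comp (by fun_prop : Continuous fun v : ℝ => (u, v))
    refine hmaj.mono' hcont.aestronglyMeasurable ?_
    filter_upwards [ae_restrict_mem measurableSet_Ioi] with v hv
    have hv' : (0:ℝ) < v := hv
    rw [KK_eq, Nat.add_sub_cancel, Real.norm_eq_abs, abs_mul, abs_mul, abs_pow, abs_of_pos hv',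
      abs_of_pos (Real.exp_pos _)]
    -- bound of gg1
    have hg : |gg1 m (u * v)| ≤ Real.exp (2 * u / t) * Real.exp (t / 2 * v) := by
      have hterm : ∀ j : ℕ, ‖(-(u * v)) ^ j / ((j.factorial : ℝ) * ((m + j).factorial : ℝ))‖
          ≤ Real.exp (t / 2 * v) * ((2 * u / t) ^ j / (j.factorial : ℝ)) := by
        intro j
        have h1 := fac_pos j
        have h2 := fac_pos (m + j)
        rw [Real.norm_eq_abs, abs_div, abs_pow, abs_neg, abs_of_nonneg (a := u * v) (by positivity),
          abs_of_pos (a := (j.factorial : ℝ) * ((m + j).factorial : ℝ)) (by positivity)]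
        have e1 : (u * v) ^ j = (t / 2 * v) ^ j * (2 * u / t) ^ j := by
          rw [← mul_pow]; congr 1; field_simp
        have e2 : (t / 2 * v) ^ j / (j.factorial : ℝ) ≤ Real.exp (t / 2 * v) :=
          Real.pow_div_factorial_le_exp _ (by positivity) j
        have e3 : (j.factorial : ℝ) ≤ ((m + j).factorial : ℝ) := by
          exact_mod_cast Nat.factorial_le (Nat.le_add_left j m)
        calc (u * v) ^ j / ((j.factorial : ℝ) * ((m + j).factorial : ℝ))
            ≤ (u * v) ^ j / ((j.factorial : ℝ) * (j.factorial : ℝ)) := by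
              apply div_le_div_of_nonneg_left (by positivity) (by positivity)
              gcongr
          _ = ((t / 2 * v) ^ j / (j.factorial : ℝ)) * ((2 * u / t) ^ j / (j.factorial : ℝ)) := by
              rw [e1]; field_simp
          _ ≤ Real.exp (t / 2 * v) * ((2 * u / t) ^ j / (j.factorial : ℝ)) := by
              gcongr
      have hS : Summable fun j : ℕ => Real.exp (t / 2 * v) * ((2 * u / t) ^ j / (j.factorial : ℝ)) :=
        (Real.summable_pow_div_factorial _).mul_left _
      have hle := tsum_of_norm_bounded hS.hasSum hterm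
      rw [Real.norm_eq_abs] at hle
      have hexp : ∑' j : ℕ, Real.exp (t / 2 * v) * ((2 * u / t) ^ j / (j.factorial : ℝ))
          = Real.exp (t / 2 * v) * Real.exp (2 * u / t) := by
        rw [tsum_mul_left]
        congr 1
        have h := (NormedSpace.expSeries_div_hasSum_exp (𝔸 := ℝ) (2 * u / t)).tsum_eq
        rw [← Real.exp_eq_exp_ℝ] at h
        exact h
      rw [hexp] at hle
      calc |gg1 m (u * v)| ≤ Real.exp (t / 2 * v) * Real.exp (2 * u / t) := hle
        _ = _ := mul_comm _ _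
    calc Real.exp (-(v * t)) * (v ^ m * |gg1 m (u * v)|)
        ≤ Real.exp (-(v * t)) * (v ^ m * (Real.exp (2 * u / t) * Real.exp (t / 2 * v))) := by
          gcongr
      _ = Real.exp (2 * u / t) * (v ^ m * (Real.exp (-(v * t)) * Real.exp (t / 2 * v))) := by ring
      _ = Real.exp (2 * u / t) * (v ^ m * Real.exp (-((t / 2) * v))) := by
          rw [← Real.exp_add]
          congr 3
          ring
  · simp only [hpt, hFval] at key
    exact key.unique htot

theorem taskKer1 : TaskKer1 := by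
  intro k hk
  refine ⟨fun u v => KK_deriv k hk u v, KK_cont k, ?_⟩
  obtain ⟨m, rfl⟩ : ∃ m, k = m + 1 := ⟨k - 1, by omega⟩
  exact fun u t hu ht => laplace m u t hu ht

end Pool.Agent.H589R3.BC
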