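import Mathlib
import Pool.Agent.H508R3.AT.Stmts

/-!
# Project 508-AT, task T2b (density points)
-/

set_option autoImplicit false

open MeasureTheory Set Filter Topology

namespace Pool.Agent.H589R3.AT

open Pool.Agent.H508R3.AT

theorem t2b : T2b := by
  intro w hw hw0 c hc hc0 hint δ hδ
  -- a level set of positive measure
  obtain ⟨j, hj, hA⟩ : ∃ j : ℕ, 0 < j ∧ volume {E : ℝ | (j : ENNReal)⁻¹ ≤ w E} ≠ 0 := by
    by_contra hcon
    push Not at hcon
    apply hw0
    have h1 : ∀ᵐ E : ℝ, ∀ j : ℕ, 0 < j → ¬ ((j : ENNReal)⁻¹ ≤ w E) := by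
      rw [ae_all_iff]
      intro j
      by_cases hj : 0 < j
      · have h2 := hcon j hj
        rw [measure_eq_zero_iff_ae_notMem] at h2
        filter_upwards [h2] with E hE _ hle
        exact hE hle
      · exact Eventually.of_forall fun E h => absurd h hj
    filter_upwards [h1] with E hE
    by_contra hne
    have hne' : w E ≠ 0 := hne
    obtain ⟨n, hn⟩ := ENNReal.exists_inv_nat_lt hne'
    have hn0 : 0 < n := by
      rcases Nat.eq_zero_or_pos n with h | h
      · subst h
        simp at hn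
      · exact h
    exact hE n hn0 hn.le
  set A : Set ℝ := {E : ℝ | (j : ENNReal)⁻¹ ≤ w E} with hAdef
  have hAm : MeasurableSet A := measurableSet_le measurable_const hw
  -- a density point
  have hne : NeBot (ae (volume.restrict A)) := by
    rw [ae_neBot, Ne, Measure.restrict_eq_zero]
    exact hA
  obtain ⟨x, hx⟩ := (Besicovitch.ae_tendsto_measure_inter_div volume A).exists
  set η : ℝ := min (δ / 8) (1 / 2) with hη
  have hη0 : 0 < η := by rw [hη]; positivity
  have hη1 : η ≤ 1 / 2 := min_le_right _ _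
  have hη2 : η ≤ δ / 8 := min_le_left _ _
  have hev : ∀ᶠ r in 𝓝[>] (0 : ℝ), ENNReal.ofReal (1 - η) <
      volume (A ∩ Metric.closedBall x r) / volume (Metric.closedBall x r) := by
    apply hx.eventually (lt_mem_nhds _)
    rw [ENNReal.ofReal_lt_one]
    linarith
  obtain ⟨r, hr, hr0⟩ := (hev.and self_mem_nhdsWithin).exists
  have hr0' : (0 : ℝ) < r := hr0
  have hball : volume (Metric.closedBall x r) = ENNReal.ofReal (2 * r) := Real.volume_closedBall x r
  have h2r : ENNReal.ofReal (2 * r) ≠ 0 := by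
    rw [Ne, ENNReal.ofReal_eq_zero]; linarith
  have hdiff : volume (Metric.closedBall x r \ A) ≤ ENNReal.ofReal (η * (2 * r)) := by
    have h1 : ENNReal.ofReal ((1 - η) * (2 * r)) ≤ volume (A ∩ Metric.closedBall x r) := by
      rw [hball, ENNReal.lt_div_iff_mul_lt (Or.inl h2r) (Or.inl ENNReal.ofReal_ne_top),
        ← ENNReal.ofReal_mul (by linarith)] at hr
      exact hr.le
    have h2 : volume (Metric.closedBall x r ∩ A) + volume (Metric.closedBall x r \ A)
        = volume (Metric.closedBall x r) := measure_inter_add_sdiff _ hAm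
    have h3 : ENNReal.ofReal ((1 - η) * (2 * r)) + volume (Metric.closedBall x r \ A)
        ≤ ENNReal.ofReal (2 * r) := by
      rw [← hball, ← h2, inter_comm]
      gcongr
    have h4 : ENNReal.ofReal (2 * r)
        = ENNReal.ofReal ((1 - η) * (2 * r)) + ENNReal.ofReal (η * (2 * r)) := by
      rw [← ENNReal.ofReal_add]
      · congr 1; ring
      · have : 0 ≤ 1 - η := by linarith
        positivity
      · positivity
    rw [h4] at h3
    exact (ENNReal.add_le_add_iff_left ENNReal.ofReal_ne_top).1 h3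
  -- rational end points
  obtain ⟨a, ha1, ha2⟩ := exists_rat_btwn (show x - r < x - r / 2 by linarith)
  obtain ⟨b, hb1, hb2⟩ := exists_rat_btwn (show x + r / 2 < x + r by linarith)
  have hab : (a : ℝ) < b := by linarith
  have hlen : r ≤ (b : ℝ) - a := by linarith
  have hsub : Icc (a : ℝ) b ⊆ Metric.closedBall x r := by
    intro y hy
    rw [Real.closedBall_eq_Icc]
    exact ⟨by linarith [hy.1], by linarith [hy.2]⟩
  obtain ⟨R, hR⟩ := exists_nat_gt (4 * (j : ℝ) / (δ * (b - a)))
  have hba : 0 < (b : ℝ) - a := by linarith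
  have hj' : (0 : ℝ) < j := by exact_mod_cast hj
  have hR0 : (0 : ℝ) < R := lt_trans (by positivity) hR
  have hR' : 2 * (j : ℝ) / R ≤ δ / 2 * (b - a) := by
    rw [div_lt_iff₀ (by positivity)] at hR
    rw [div_le_iff₀ hR0]
    nlinarith
  refine ⟨a, b, hab, R, fun n => ?_⟩
  -- Markov on A
  have hmark : volume {E | E ∈ A ∧ (R : ℝ) < c n E} ≤ ENNReal.ofReal (2 * j / R) := by
    have hset : MeasurableSet {E | E ∈ A ∧ (R : ℝ) < c n E} :=
      hAm.inter (measurableSet_lt measurable_const (hc n))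
    have h1 : (ENNReal.ofReal ((R : ℝ) / j)) * volume {E | E ∈ A ∧ (R : ℝ) < c n E}
        ≤ ∫⁻ E, w E * ENNReal.ofReal (c n E) := by
      rw [← setLIntegral_const]
      calc ∫⁻ _ in {E | E ∈ A ∧ (R : ℝ) < c n E}, ENNReal.ofReal ((R : ℝ) / j)
          ≤ ∫⁻ E in {E | E ∈ A ∧ (R : ℝ) < c n E}, w E * ENNReal.ofReal (c n E) := by
            apply setLIntegral_mono' hset
            intro E hE
            rw [div_eq_inv_mul, ENNReal.ofReal_mul (by positivity),
              ENNReal.ofReal_inv_of_pos hj', ENNReal.ofReal_natCast]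
            exact mul_le_mul' hE.1 (ENNReal.ofReal_le_ofReal hE.2.le)
        _ ≤ ∫⁻ E, w E * ENNReal.ofReal (c n E) := setLIntegral_le_lintegral _ _
    have h2 := h1.trans (hint n)
    have h3 : ENNReal.ofReal ((R : ℝ) / j) ≠ 0 := by
      rw [Ne, ENNReal.ofReal_eq_zero, not_le]; positivity
    have h4 : volume {E | E ∈ A ∧ (R : ℝ) < c n E} ≤ 2 / ENNReal.ofReal ((R : ℝ) / j) := by
      rw [ENNReal.le_div_iff_mul_le (Or.inl h3) (Or.inl ENNReal.ofReal_ne_top), mul_comm]
      exact h2
    refine h4.trans (le_of_eq ?_)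
    rw [← ENNReal.ofReal_ofNat 2, ← ENNReal.ofReal_div_of_pos (by positivity)]
    congr 1
    field_simp
  have hcov : {E | E ∈ Icc (a : ℝ) b ∧ (R : ℝ) < c n E}
      ⊆ (Metric.closedBall x r \ A) ∪ {E | E ∈ A ∧ (R : ℝ) < c n E} := by
    intro E hE
    by_cases hEA : E ∈ A
    · exact Or.inr ⟨hEA, hE.2⟩
    · exact Or.inl ⟨hsub hE.1, hEA⟩
  calc volume {E | E ∈ Icc (a : ℝ) b ∧ (R : ℝ) < c n E}
      ≤ volume ((Metric.closedBall x r \ A) ∪ {E | E ∈ A ∧ (R : ℝ) < c n E}) := measure_mono hcov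
    _ ≤ volume (Metric.closedBall x r \ A) + volume {E | E ∈ A ∧ (R : ℝ) < c n E} := measure_union_le _ _
    _ ≤ ENNReal.ofReal (η * (2 * r)) + ENNReal.ofReal (2 * j / R) := add_le_add hdiff hmark
    _ = ENNReal.ofReal (η * (2 * r) + 2 * j / R) := by
        rw [ENNReal.ofReal_add (by positivity) (by positivity)]
    _ ≤ ENNReal.ofReal (δ * (b - a)) := by
        apply ENNReal.ofReal_le_ofReal
        have e1 : η * (2 * r) ≤ δ / 8 * (2 * r) := by gcongr
        have e2 : δ / 8 * (2 * r) ≤ δ / 2 * (b - a) := by nlinarith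
        linarith

end Pool.Agent.H589R3.AT
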