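import Mathlib
import Pool.Agent.H289R3.FS.Stmts
import Pool.Agent.H472R3.Topo

/-! Project H289-FS, task Q: the quotient space is a simply connected topological 6-manifold. -/

set_option autoImplicit false

open Module

namespace Pool.Agent.H589R3.FSQ

open Pool.Agent.H289R3.FS

/-- the model space -/
abbrev E2 := EuclideanSpace ℝ (Fin 2)

/-- linear identification of the model spaces -/
noncomputable def lin : (E2 × (E2 × E2)) ≃L[ℝ] EuclideanSpace ℝ (Fin 6) :=
  ContinuousLinearEquiv.ofFinrankEq (by simp)

/-- the same, as a homeomorphism of the product model space -/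
noncomputable def hom : ModelProd E2 (ModelProd E2 E2) ≃ₜ EuclideanSpace ℝ (Fin 6) :=
  lin.toHomeomorph

theorem taskQ : TaskQ := by
  constructor
  · haveI : Fact (finrank ℝ (EuclideanSpace ℝ (Fin 3)) = 2 + 1) := ⟨by simp⟩
    letI c0 : ChartedSpace E2 S2 := EuclideanSpace.instChartedSpaceSphere
    letI c1 : ChartedSpace (ModelProd E2 (ModelProd E2 E2)) (S2 × S2 × S2) := inferInstance
    letI c2 : ChartedSpace (EuclideanSpace ℝ (Fin 6)) (ModelProd E2 (ModelProd E2 E2)) :=
      hom.toOpenPartialHomeomorph.singletonChartedSpace rfl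
    exact ⟨ChartedSpace.comp (EuclideanSpace ℝ (Fin 6)) (ModelProd E2 (ModelProd E2 E2)) (S2 × S2 × S2)⟩
  · haveI h1 : SimplyConnectedSpace S2 := Pool.Agent.H472R3.simplyConnected_sph 2 le_rfl
    haveI h2 : SimplyConnectedSpace (S2 × S2) := Pool.Agent.H472R3.simplyConnected_prod _ _
    exact Pool.Agent.H472R3.simplyConnected_prod _ _

end Pool.Agent.H589R3.FSQ
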