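import Pool.Agent.H362S.Stmts
import Pool.Agent.H31R3.Kes.GUp

/-!
Task E of the project KS: upper bound for the mean cluster size up to constants.
-/

set_option autoImplicit false

namespace H362S

namespace E589

open H974 H31K Finset MeasureTheory

/-- An arm to distance `2 N` gives an arm to distance `k < N` and, independently, a crossing of
the annulus. -/
theorem arm_mul {p : ℝ} (h0 : 0 ≤ p) (h1 : p ≤ 1) {N k : ℕ} (hN : 2 ≤ N) (hk : k + 1 ≤ N) :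
    arm p (2 * N) ≤ arm p k * (20 * eps (1 - p) N) := by
  have hN' : (2:ℤ) ≤ N := by exact_mod_cast hN
  have ok := okq h0 h1
  have c1 : ((N - 1 : ℕ) : ℤ) = (N:ℤ) - 1 := by omega
  have c2 : ((2 * N - 1 : ℕ) : ℤ) = 2 * (N:ℤ) - 1 := by omega
  set n : ℤ := (N:ℤ) with hn
  set S := boxE (2 * N) with hS
  have sub : ∀ a b c d : ℤ, -(2 * n) ≤ a → b ≤ 2 * n → -(2 * n) ≤ c → d ≤ 2 * n →
      RE a b c d ⊆ S := by
    intro a b c d ha hb hc hd
    rw [hS]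
    unfold boxE
    exact RE_subset (by push_cast; omega) (by push_cast; omega) (by push_cast; omega)
      (by push_cast; omega)
  have e1 : Pr (fun _ => p) S (LRc (n - 1) (2 * n - 1) (-(2 * n - 1)) (2 * n - 1)) =
      hh p n (4 * n - 2) := by
    rw [pr_LRc p (LRE_subset_RE.trans (sub _ _ _ _ (by omega) (by omega) (by omega) (by omega)))]
    congr 1 <;> ring
  have e2 : Pr (fun _ => p) S (LRc (-(2 * n - 1)) (-(n - 1)) (-(2 * n - 1)) (2 * n - 1)) =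
      hh p n (4 * n - 2) := by
    rw [pr_LRc p (LRE_subset_RE.trans (sub _ _ _ _ (by omega) (by omega) (by omega) (by omega)))]
    congr 1 <;> ring
  have e3 : Pr (fun _ => p) S (TBc (-(2 * n - 1)) (2 * n - 1) (n - 1) (2 * n - 1)) =
      hh p n (4 * n - 2) := by
    rw [pr_TBc p (TBE_subset_RE.trans (sub _ _ _ _ (by omega) (by omega) (by omega) (by omega)))]
    congr 1 <;> ring
  have e4 : Pr (fun _ => p) S (TBc (-(2 * n - 1)) (2 * n - 1) (-(2 * n - 1)) (-(n - 1))) =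
      hh p n (4 * n - 2) := by
    rw [pr_TBc p (TBE_subset_RE.trans (sub _ _ _ _ (by omega) (by omega) (by omega) (by omega)))]
    congr 1 <;> ring
  -- independence
  have j1 : arm p (2 * N) ≤ Pr (fun _ => p) S
      (fun F => Arm k F ∧ ¬ Blk (n - 1) (2 * n - 1) F) := by
    unfold arm
    apply Pr_mono ok
    rintro F hF ⟨v, hv, hr⟩
    refine ⟨?_, ?_⟩
    · obtain ⟨w, k1, k2, k3⟩ := first_exit (G := ↑F ∩ ↑(boxE (2 * N))) (a := -(k:ℤ)) (b := k)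
        (c := -(k:ℤ)) (d := k) (u := (0, 0)) (v := v) (by unfold inR; simp) hr
        (by unfold onB at hv; push_cast at hv; omega)
      refine ⟨w, ⟨k1, k2⟩, k3.mono ?_⟩
      rintro e ⟨⟨k4, -⟩, k5⟩
      exact ⟨k4, k5⟩
    · exact not_blk_of_arm (F := F) (R1 := n - 1) (R2 := 2 * n - 1) (by omega) (by omega)
        (v := v) (hr.mono Set.inter_subset_left) (by
          rcases hv.2 with hv | hv | hv | hv <;> push_cast at hv <;> omega)
  have hkS : boxE k ⊆ S := boxE_mono (by omega)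
  have hAS : annE (N - 1) (2 * N - 1) ⊆ S :=
    (Finset.sdiff_subset).trans (boxE_mono (by omega))
  have hdis : Disjoint (boxE k) (annE (N - 1) (2 * N - 1)) := by
    rw [Finset.disjoint_left]
    intro e he he'
    exact (Finset.mem_sdiff.mp he').2 (boxE_mono (by omega) he)
  have hloc : ∀ F : Finset Edg, (¬ Blk (n - 1) (2 * n - 1) F ↔
      ¬ Blk (n - 1) (2 * n - 1) (F ∩ annE (N - 1) (2 * N - 1))) := by
    intro F
    have h3 := Blk_local (n := N - 1) (m := 2 * N - 1) (by omega)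
      (Finset.Subset.refl (annE (N - 1) (2 * N - 1))) F
    rw [c1, c2] at h3
    exact not_congr h3
  have j2 := Pr_indep (p := fun _ => p) (U := S) hkS hAS hdis (A := Arm k)
    (B := fun F => ¬ Blk (n - 1) (2 * n - 1) F)
    (fun F _ => Arm_local (Finset.Subset.refl _)) (fun F _ => hloc F)
  rw [j2, pr_Arm p hkS] at j1
  have i1 : Pr (fun _ => p) S (fun F => ¬ Blk (n - 1) (2 * n - 1) F) ≤
      Pr (fun _ => p) S (fun F =>
      ((LRc (n - 1) (2 * n - 1) (-(2 * n - 1)) (2 * n - 1) F ∨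
        LRc (-(2 * n - 1)) (-(n - 1)) (-(2 * n - 1)) (2 * n - 1) F)) ∨
      (TBc (-(2 * n - 1)) (2 * n - 1) (n - 1) (2 * n - 1) F ∨
        TBc (-(2 * n - 1)) (2 * n - 1) (-(2 * n - 1)) (-(n - 1)) F)) := by
    apply Pr_mono ok
    intro F _ hnb
    unfold Blk at hnb
    tauto
  have i2 := Pr_or_le ok S (fun F => LRc (n - 1) (2 * n - 1) (-(2 * n - 1)) (2 * n - 1) F ∨
        LRc (-(2 * n - 1)) (-(n - 1)) (-(2 * n - 1)) (2 * n - 1) F)
      (fun F => TBc (-(2 * n - 1)) (2 * n - 1) (n - 1) (2 * n - 1) F ∨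
        TBc (-(2 * n - 1)) (2 * n - 1) (-(2 * n - 1)) (-(n - 1)) F)
  have i3 := Pr_or_le ok S (LRc (n - 1) (2 * n - 1) (-(2 * n - 1)) (2 * n - 1))
    (LRc (-(2 * n - 1)) (-(n - 1)) (-(2 * n - 1)) (2 * n - 1))
  have i4 := Pr_or_le ok S (TBc (-(2 * n - 1)) (2 * n - 1) (n - 1) (2 * n - 1))
    (TBc (-(2 * n - 1)) (2 * n - 1) (-(2 * n - 1)) (-(n - 1)))
  rw [e1, e2] at i3
  rw [e3, e4] at i4
  have d1 := hh_dual (q := p) (w := n) (h := 4 * n - 2) (by omega) (by omega)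
  have d2 : hh (1 - p) (4 * n) (n - 1) ≤ hh (1 - p) (4 * n - 2 + 1) (n - 1) :=
    hh_mono (by linarith) (by linarith) (by omega) (by omega) le_rfl
  have d3 := long_cross (p := 1 - p) (by linarith) (by linarith) hN
  rw [← hn] at d3
  have hB : Pr (fun _ => p) S (fun F => ¬ Blk (n - 1) (2 * n - 1) F) ≤ 20 * eps (1 - p) N := by
    linarith
  exact j1.trans (mul_le_mul_of_nonneg_left hB (arm_nonneg h0 h1 k))

theorem arm_far {p : ℝ} (h0 : 0 ≤ p) (h1 : p ≤ 1) {N k : ℕ} (hN : 2 ≤ N) (hk : k + 1 ≤ N)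
    (he : eps (1 - p) N ≤ 1/100) (j : ℕ) :
    arm p (2 * (2^j * N)) ≤ arm p k * (1/4)^(2^j) := by
  have h2 : N ≤ 2^j * N := Nat.le_mul_of_pos_left _ (by positivity)
  have h3 := arm_mul h0 h1 (N := 2^j * N) (k := k) (by omega) (by omega)
  have h4 := eps_nonneg (p := 1 - p) (by linarith) (by linarith) (2^j * N)
  have h5 := eps_pow2 (p := 1 - p) (by linarith) (by linarith) hN he j
  refine h3.trans (mul_le_mul_of_nonneg_left ?_ (arm_nonneg h0 h1 k))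
  linarith

theorem two_pow_le {c : ℝ} (h0 : 0 ≤ c) (h1 : c ≤ 1) : (2:ℝ)^c ≤ 2 := by
  calc (2:ℝ)^c ≤ (2:ℝ)^(1:ℝ) := Real.rpow_le_rpow_of_exponent_le (by norm_num) h1
    _ = 2 := Real.rpow_one _

/-- the arm to distance `N - 1` -/
theorem arm_pred {C0 : ℝ} (hC0 : 0 < C0)
    (h : ∀ n : ℕ, 1 ≤ n → arm (1/2) n ≤ C0 * (n:ℝ)^(-(5/48) : ℝ)) {p : ℝ} (h0 : 0 ≤ p)
    (hp : p ≤ 1/2) {N : ℕ} (hN : 2 ≤ N) : arm p (N - 1) ≤ 2 * C0 * (N:ℝ)^(-(5/48) : ℝ) := by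
  have h1 : arm p (N - 1) ≤ C0 * ((N - 1 : ℕ) : ℝ)^(-(5/48) : ℝ) :=
    (arm_mono_param h0 hp (by norm_num) _).trans (h _ (by omega))
  have hN' : (2:ℝ) ≤ N := by exact_mod_cast hN
  have h2 : (N:ℝ)/2 ≤ ((N - 1 : ℕ) : ℝ) := by
    rw [Nat.cast_sub (by omega)]
    push_cast
    linarith
  have h3 : ((N - 1 : ℕ) : ℝ)^(-(5/48) : ℝ) ≤ ((N:ℝ)/2)^(-(5/48) : ℝ) :=
    Real.rpow_le_rpow_of_nonpos (by linarith) h2 (by norm_num)
  have h4 : ((N:ℝ)/2)^(-(5/48) : ℝ) = (2:ℝ)^(5/48 : ℝ) * (N:ℝ)^(-(5/48) : ℝ) := by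
    rw [Real.div_rpow (by linarith) (by norm_num), Real.rpow_neg (by norm_num : (0:ℝ) ≤ 2),
      div_inv_eq_mul, mul_comm]
  have h5 : (2:ℝ)^(5/48 : ℝ) ≤ 2 := two_pow_le (by norm_num) (by norm_num)
  have h6 : 0 < (N:ℝ)^(-(5/48) : ℝ) := Real.rpow_pos_of_pos (by linarith) _
  calc arm p (N - 1) ≤ C0 * ((2:ℝ)^(5/48 : ℝ) * (N:ℝ)^(-(5/48) : ℝ)) :=
        h1.trans (mul_le_mul_of_nonneg_left (h3.trans h4.le) hC0.le)
    _ ≤ C0 * (2 * (N:ℝ)^(-(5/48) : ℝ)) :=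
        mul_le_mul_of_nonneg_left (mul_le_mul_of_nonneg_right h5 h6.le) hC0.le
    _ = _ := by ring

/-- Power bound for the two-point function at and below the critical point. -/
theorem tau_pow {C0 : ℝ} (hC0 : 0 < C0)
    (h : ∀ n : ℕ, 1 ≤ n → arm (1/2) n ≤ C0 * (n:ℝ)^(-(5/48) : ℝ)) (p : unitInterval)
    (hp : (p:ℝ) ≤ 1/2) (x : Vtx) :
    tau p x ≤ (8 * C0^2 + 3) * (((max x.1.natAbs x.2.natAbs : ℕ) : ℝ) + 1)^(-(5/24) : ℝ) := by
  set r := max x.1.natAbs x.2.natAbs with hr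
  have hp0 : (0:ℝ) ≤ p := p.2.1
  have hr0 : (0:ℝ) < (r:ℝ) + 1 := by positivity
  by_cases h3 : r ≤ 2
  · have h4 : (1:ℝ)/3 ≤ ((r:ℝ) + 1)^(-(5/24) : ℝ) := by
      have h5 : (r:ℝ) + 1 ≤ 3 := by
        have : (r:ℝ) ≤ 2 := by exact_mod_cast h3
        linarith
      calc (1:ℝ)/3 = (3:ℝ)^(-1:ℝ) := by rw [Real.rpow_neg_one]; norm_num
        _ ≤ (3:ℝ)^(-(5/24) : ℝ) :=
            Real.rpow_le_rpow_of_exponent_le (by norm_num) (by norm_num)
        _ ≤ ((r:ℝ) + 1)^(-(5/24) : ℝ) :=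
            Real.rpow_le_rpow_of_nonpos hr0 h5 (by norm_num)
    have h6 := tau_le_one p x
    have h7 : 0 ≤ 8 * C0^2 * ((r:ℝ) + 1)^(-(5/24) : ℝ) := by positivity
    nlinarith
  · have h8 : 1 ≤ (r-1)/2 := by omega
    have h9 : r + 1 ≤ 8 * ((r-1)/2) := by omega
    have h10 : 2 * (((r-1)/2 : ℕ):ℤ) < |x.1| ∨ 2 * (((r-1)/2 : ℕ):ℤ) < |x.2| := by
      have : r = x.1.natAbs ∨ r = x.2.natAbs := by
        rcases max_choice x.1.natAbs x.2.natAbs with h | h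
        · left; rw [hr, h]
        · right; rw [hr, h]
      rw [Int.abs_eq_natAbs, Int.abs_eq_natAbs]
      rcases this with h | h
      · left; omega
      · right; omega
    have h11 := tau_le_arm_sq p h10
    set m := (r-1)/2 with hm
    have hm0 : (0:ℝ) < m := by exact_mod_cast (by omega : 0 < m)
    have h12 : arm p m ≤ C0 * (m:ℝ)^(-(5/48) : ℝ) :=
      (arm_mono_param hp0 hp (by norm_num) m).trans (h m h8)
    have h13 : (arm p m)^2 ≤ (C0 * (m:ℝ)^(-(5/48) : ℝ))^2 :=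
      pow_le_pow_left₀ (arm_nonneg hp0 (by linarith) m) h12 2
    have h14 : (C0 * (m:ℝ)^(-(5/48) : ℝ))^2 = C0^2 * (m:ℝ)^(-(5/24) : ℝ) := by
      rw [mul_pow, ← Real.rpow_natCast ((m:ℝ)^(-(5/48) : ℝ)), ← Real.rpow_mul hm0.le]
      congr 2
      norm_num
    have h15 : (m:ℝ)^(-(5/24) : ℝ) ≤ (((r:ℝ)+1)/8)^(-(5/24) : ℝ) := by
      apply Real.rpow_le_rpow_of_nonpos (by positivity) _ (by norm_num)
      have : ((r + 1 : ℕ):ℝ) ≤ ((8 * m : ℕ) : ℝ) := by exact_mod_cast h9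
      push_cast at this
      linarith
    have h16 : (((r:ℝ)+1)/8)^(-(5/24) : ℝ) ≤ 8 * ((r:ℝ)+1)^(-(5/24) : ℝ) := by
      rw [Real.div_rpow hr0.le (by norm_num)]
      rw [div_eq_mul_inv, mul_comm]
      apply mul_le_mul_of_nonneg_right _ (by positivity)
      rw [← Real.rpow_neg (by norm_num), neg_neg]
      calc (8:ℝ)^(5/24 : ℝ) ≤ (8:ℝ)^(1:ℝ) :=
            Real.rpow_le_rpow_of_exponent_le (by norm_num) (by norm_num)
        _ = 8 := Real.rpow_one _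
    have h17 : 0 ≤ ((r:ℝ)+1)^(-(5/24) : ℝ) := by positivity
    calc tau p x ≤ (arm p m)^2 := h11
      _ ≤ C0^2 * (m:ℝ)^(-(5/24) : ℝ) := h13.trans h14.le
      _ ≤ C0^2 * (8 * ((r:ℝ)+1)^(-(5/24) : ℝ)) :=
          mul_le_mul_of_nonneg_left (h15.trans h16) (by positivity)
      _ ≤ _ := by nlinarith

/-- The two-point function beyond the correlation length. -/
theorem tau_far {C0 : ℝ} (hC0 : 0 < C0)
    (h : ∀ n : ℕ, 1 ≤ n → arm (1/2) n ≤ C0 * (n:ℝ)^(-(5/48) : ℝ)) (p : unitInterval)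
    (hp : (p:ℝ) ≤ 1/2) {N : ℕ} (hN : 2 ≤ N) (he : eps (1 - (p:ℝ)) N ≤ 1/100)
    (x : Vtx) (hx : 2 * (4 * N) ≤ max x.1.natAbs x.2.natAbs) :
    tau p x ≤ (768 * C0^2) * (((4 * N : ℕ) : ℝ))^(-(5/24) : ℝ) *
      (((4 * N : ℕ) : ℝ) / ((max x.1.natAbs x.2.natAbs : ℕ) : ℝ))^3 := by
  set r := max x.1.natAbs x.2.natAbs with hr
  have hp0 : (0:ℝ) ≤ p := p.2.1
  set m := (r - 1) / (4 * N) with hm
  have hm1 : 1 ≤ m := by
    rw [hm, Nat.one_le_div_iff (by omega)]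
    omega
  set j := Nat.log 2 m with hj
  have h1 : 2^j ≤ m := Nat.pow_log_le_self 2 (by omega)
  have h2 : m < 2^(j+1) := Nat.lt_pow_succ_log_self (by norm_num) m
  have h3 : m * (4 * N) ≤ r - 1 := Nat.div_mul_le_self (r - 1) (4*N)
  have h4 : r - 1 < (m + 1) * (4 * N) := by
    have := Nat.lt_mul_div_succ (r - 1) (show 0 < 4 * N by omega)
    rw [← hm] at this
    calc r - 1 < 4 * N * (m + 1) := this
      _ = (m + 1) * (4 * N) := by ring
  have h5 : 2 * (2 * (2^j * N)) < r := by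
    have : 2 * (2 * (2^j * N)) ≤ r - 1 := by
      calc 2 * (2 * (2^j * N)) = 2^j * (4 * N) := by ring
        _ ≤ m * (4 * N) := Nat.mul_le_mul_right _ h1
        _ ≤ r - 1 := h3
    omega
  have h6 : 2 * ((2 * (2^j * N) : ℕ):ℤ) < |x.1| ∨ 2 * ((2 * (2^j * N) : ℕ):ℤ) < |x.2| := by
    have : r = x.1.natAbs ∨ r = x.2.natAbs := by
      rcases max_choice x.1.natAbs x.2.natAbs with h | h
      · left; rw [hr, h]
      · right; rw [hr, h]
    generalize 2 * (2^j * N) = t at h5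
    rw [Int.abs_eq_natAbs, Int.abs_eq_natAbs]
    rcases this with h | h
    · left; omega
    · right; omega
  have h7 := tau_le_arm_sq p h6
  have h8 := arm_far p.2.1 p.2.2 hN (k := N - 1) (by omega) he j
  have h9 := arm_pred hC0 h hp0 hp hN
  have hN0 : (0:ℝ) < N := by exact_mod_cast (by omega : 0 < N)
  have hr0 : (0:ℝ) < r := by exact_mod_cast (by omega : 0 < r)
  -- decay
  have hz : ((r:ℝ) / (8 * N)) ≤ (2:ℝ)^j := by
    rw [div_le_iff₀ (by positivity)]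
    have h9 : r ≤ 2^j * (8 * N) := by
      have : (m + 1) * (4 * N) ≤ 2^(j+1) * (4 * N) := Nat.mul_le_mul_right _ h2
      have e : 2^(j+1) * (4 * N) = 2^j * (8 * N) := by ring
      omega
    exact_mod_cast h9
  have h10 : (1/4 : ℝ) ≤ Real.exp (-1) := by
    rw [Real.exp_neg, one_div]
    apply inv_anti₀ (Real.exp_pos _)
    have := Real.exp_one_lt_d9
    linarith
  have h11 : ((1:ℝ)/4)^(2^j) ≤ 48 * (((4 * N : ℕ) : ℝ) / r)^3 := by
    calc ((1:ℝ)/4)^(2^j) ≤ (Real.exp (-1))^(2^j) := pow_le_pow_left₀ (by norm_num) h10 _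
      _ = Real.exp (-((2:ℝ)^j)) := by
          rw [← Real.exp_nat_mul]
          congr 1
          push_cast
          ring
      _ ≤ Real.exp (-((r:ℝ) / (8 * N))) := Real.exp_le_exp.mpr (by linarith)
      _ ≤ 6 / ((r:ℝ) / (8 * N))^3 := exp_neg_cube (by positivity)
      _ = _ := by
          push_cast
          field_simp
          ring
  have h12 : ((1:ℝ)/4)^(2^j) ≤ 1 := pow_le_one₀ (by norm_num) (by norm_num)
  have h13 : (0:ℝ) ≤ ((1:ℝ)/4)^(2^j) := by positivity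
  have h14 : 0 ≤ arm (p:ℝ) (N - 1) := arm_nonneg p.2.1 p.2.2 _
  have h15 : 0 ≤ arm (p:ℝ) (2 * (2^j * N)) := arm_nonneg p.2.1 p.2.2 _
  have h16 : (arm (p:ℝ) (N - 1))^2 ≤ 4 * C0^2 * (N:ℝ)^(-(5/24) : ℝ) := by
    have i1 : (arm (p:ℝ) (N - 1))^2 ≤ (2 * C0 * (N:ℝ)^(-(5/48) : ℝ))^2 :=
      pow_le_pow_left₀ h14 h9 2
    refine i1.trans (le_of_eq ?_)
    rw [mul_pow, ← Real.rpow_natCast ((N:ℝ)^(-(5/48) : ℝ)), ← Real.rpow_mul hN0.le]
    have : (-(5/48) : ℝ) * ((2:ℕ):ℝ) = -(5/24) := by norm_num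
    rw [this]
    ring
  have h17 : (N:ℝ)^(-(5/24) : ℝ) ≤ 4 * (((4 * N : ℕ) : ℝ))^(-(5/24) : ℝ) := by
    push_cast
    rw [Real.mul_rpow (by norm_num) hN0.le]
    have i1 : (1:ℝ)/4 ≤ (4:ℝ)^(-(5/24) : ℝ) := by
      calc (1:ℝ)/4 = (4:ℝ)^(-1:ℝ) := by rw [Real.rpow_neg_one]; norm_num
        _ ≤ _ := Real.rpow_le_rpow_of_exponent_le (by norm_num) (by norm_num)
    have i2 : 0 < (N:ℝ)^(-(5/24) : ℝ) := Real.rpow_pos_of_pos hN0 _
    nlinarith
  have h18 : 0 ≤ (((4 * N : ℕ) : ℝ) / r)^3 := by positivity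
  have h19 : 0 ≤ (((4 * N : ℕ) : ℝ))^(-(5/24) : ℝ) := by positivity
  calc tau p x ≤ (arm (p:ℝ) (2 * (2^j * N)))^2 := h7
    _ ≤ (arm (p:ℝ) (N - 1) * (1/4)^(2^j))^2 := pow_le_pow_left₀ h15 h8 2
    _ = (arm (p:ℝ) (N - 1))^2 * (((1:ℝ)/4)^(2^j) * ((1:ℝ)/4)^(2^j)) := by ring
    _ ≤ (arm (p:ℝ) (N - 1))^2 * (1 * (48 * (((4 * N : ℕ) : ℝ) / r)^3)) := by
        apply mul_le_mul_of_nonneg_left _ (sq_nonneg _)
        exact mul_le_mul h12 h11 h13 (by norm_num)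
    _ ≤ (4 * C0^2 * (4 * (((4 * N : ℕ) : ℝ))^(-(5/24) : ℝ))) *
          (1 * (48 * (((4 * N : ℕ) : ℝ) / r)^3)) := by
        apply mul_le_mul_of_nonneg_right _ (by positivity)
        exact h16.trans (mul_le_mul_of_nonneg_left h17 (by positivity))
    _ = _ := by ring

theorem sig_up_of {C0 : ℝ} (hC0 : 0 < C0)
    (h : ∀ n : ℕ, 1 ≤ n → arm (1/2) n ≤ C0 * (n:ℝ)^(-(5/48) : ℝ)) (hF : FarS) : SigUp := by
  obtain ⟨C1, hC1, hfar⟩ := hF
  set C : ℝ := 8 * C0^2 + 3 with hC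
  have hC3 : 1 ≤ C := by rw [hC]; nlinarith [sq_nonneg C0]
  set D : ℝ := 768 * C0^2 with hD
  have hD0 : 0 < D := by rw [hD]; positivity
  refine ⟨(32 * C + 16 * D) * (4 * C1)^(43/24 : ℝ), by positivity, ?_⟩
  intro p hp
  have hp0 : (0:ℝ) ≤ p := p.2.1
  set s : ℝ := 1/2 - (p:ℝ) with hs
  have hs0 : 0 < s := by rw [hs]; linarith
  obtain ⟨N, hN2, hNle, heps⟩ := hfar (1 - (p:ℝ)) (by linarith) (by linarith)
  have e0 : (1 - (p:ℝ)) - 1/2 = s := by rw [hs]; ring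
  rw [e0] at hNle
  have hNpos : (0:ℝ) < N := by exact_mod_cast (by omega : 0 < N)
  set M0 : ℕ := 4 * N with hM0
  have hM02 : 2 ≤ M0 := by omega
  have hM0pos : (0:ℝ) < M0 := by exact_mod_cast (by omega : 0 < M0)
  -- the function `f`
  set f : ℕ → ℝ := fun r => if r < 2 * M0 then C * ((r:ℝ)+1)^(-(5/24) : ℝ)
    else D * (M0:ℝ)^(-(5/24) : ℝ) * ((M0:ℝ)/r)^3 with hf
  have hf0 : ∀ r, 0 ≤ f r := by
    intro r
    rw [hf]
    simp only
    split_ifs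
    · positivity
    · positivity
  have hfx : ∀ x : Vtx, tau p x ≤ f (max x.1.natAbs x.2.natAbs) := by
    intro x
    rw [hf]
    simp only
    split_ifs with hlt
    · exact tau_pow hC0 h p hp.le x
    · rw [not_lt] at hlt
      exact tau_far hC0 h p hp.le hN2 heps x hlt
  refine (sigma_le_shell p hf0 hfx).trans ?_
  rw [ENNReal.tsum_eq_iSup_nat]
  apply iSup_le
  intro M
  rw [← ENNReal.ofReal_sum_of_nonneg (fun r _ => mul_nonneg (by positivity) (hf0 r))]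
  apply ENNReal.ofReal_le_ofReal
  have hsum : ∑ r ∈ range M, 8 * ((r:ℝ) + 1) * f r ≤
      (32 * C + 16 * D) * (M0:ℝ)^(2 - 5/24 : ℝ) := by
    have h1 : ∑ r ∈ range M, 8 * ((r:ℝ) + 1) * f r ≤
        ∑ r ∈ range (max M (2*M0)), 8 * ((r:ℝ) + 1) * f r := by
      apply Finset.sum_le_sum_of_subset_of_nonneg
      · exact Finset.range_subset_range.mpr (le_max_left _ _)
      · intro r _ _
        exact mul_nonneg (by positivity) (hf0 r)
    refine h1.trans ?_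
    rw [← Finset.sum_range_add_sum_Ico _ (le_max_right M (2*M0))]
    have h2 : ∑ r ∈ range (2*M0), 8 * ((r:ℝ) + 1) * f r ≤ 32 * C * (M0:ℝ)^(2 - 5/24 : ℝ) := by
      refine le_trans (le_of_eq ?_) (sum_near hM02 (a := 5/24) (a' := 5/24) (by linarith)
        (by norm_num) le_rfl (by norm_num))
      apply Finset.sum_congr rfl
      intro r hr
      rw [hf]
      simp only
      rw [if_pos (Finset.mem_range.mp hr)]
    have h3 : ∑ r ∈ Finset.Ico (2*M0) (max M (2*M0)), 8 * ((r:ℝ) + 1) * f r ≤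
        16 * D * (M0:ℝ)^(2 - 5/24 : ℝ) := by
      refine le_trans (le_of_eq ?_) (sum_far hM02 (a' := 5/24) hD0.le (max M (2*M0)))
      apply Finset.sum_congr rfl
      intro r hr
      rw [hf]
      simp only
      rw [if_neg (not_lt.mpr (Finset.mem_Ico.mp hr).1)]
    linarith
  refine hsum.trans ?_
  have h4 : (M0:ℝ)^(2 - 5/24 : ℝ) ≤ (4 * C1)^(43/24 : ℝ) * s^(-(43/18) : ℝ) := by
    have i1 : (M0:ℝ) ≤ (4 * C1) * s^(-(4/3) : ℝ) := by
      rw [hM0]; push_cast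
      linarith
    have i2 : (2 - 5/24 : ℝ) = 43/24 := by norm_num
    rw [i2]
    calc (M0:ℝ)^(43/24 : ℝ) ≤ ((4 * C1) * s^(-(4/3) : ℝ))^(43/24 : ℝ) :=
          Real.rpow_le_rpow hM0pos.le i1 (by norm_num)
      _ = (4 * C1)^(43/24 : ℝ) * s^(-(43/18) : ℝ) := by
          rw [Real.mul_rpow (by linarith) (by positivity), ← Real.rpow_mul hs0.le]
          norm_num
  calc (32 * C + 16 * D) * (M0:ℝ)^(2 - 5/24 : ℝ) ≤
      (32 * C + 16 * D) * ((4 * C1)^(43/24 : ℝ) * s^(-(43/18) : ℝ)) :=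
        mul_le_mul_of_nonneg_left h4 (by positivity)
    _ = (32 * C + 16 * D) * (4 * C1)^(43/24 : ℝ) * s^(-(43/18) : ℝ) := by ring

theorem taskE : TaskE := by
  intro hF
  obtain ⟨c1, C, hc1, hC, harm⟩ := Pool.Agent.H160R2.SA.arSharp
  exact sig_up_of hC (fun n hn => (harm n hn).2) hF

end E589

end H362S
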